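import Mathlib

/-!
A connected graph on 66 vertices with proper fractional revival on `{a, b}` such that neither
`C^+` nor `C^-` is closed under algebraic conjugates.

The vertices other than `a = 0` and `b = 1` form four cells `A1, B1, A2, B2` of 16 vertices, and
each of these cells is divided into four classes of four vertices.
The adjacency operator commutes, on the walk module of `a` and `b`, with an operator `T` such that
`T e_a = e_b` and `T ^ 2 = 1 + T`.
-/

set_option autoImplicit false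

open scoped Matrix

namespace Pool.Agent.Results.MP_d93d44_co.NotConjClosed

variable {V : Type*} [Fintype V] [DecidableEq V]

open scoped Classical in
/-- The adjacency matrix of a graph, with entries `0` and `1` in `R`. -/
noncomputable def adjM (R : Type*) [Zero R] [One R] (X : SimpleGraph V) : Matrix V V R :=
  Matrix.of fun u v => if X.Adj u v then 1 else 0

/-- The transition matrix `U(t) = exp(i t A)`. -/
noncomputable def U (X : SimpleGraph V) (t : ℝ) : Matrix V V ℂ :=
  NormedSpace.exp ((Complex.I * (t : ℂ)) • adjM ℂ X)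

/-- Proper fractional revival on `{a, b}` at time `t`. -/
def ProperFractionalRevival (X : SimpleGraph V) (a b : V) (t : ℝ) : Prop :=
  a ≠ b ∧ (∀ c, c ≠ a → c ≠ b → U X t a c = 0 ∧ U X t b c = 0) ∧ U X t a b ≠ 0

/-- The adjacency operator on the Euclidean space of real functions on the vertices. -/
noncomputable def adjOp (X : SimpleGraph V) : Module.End ℝ (EuclideanSpace ℝ V) :=
  Matrix.toEuclideanLin (adjM ℝ X)

/-- The `(a, b)` entry of the orthogonal projection `E_θ` onto the `θ`-eigenspace. -/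
noncomputable def projEntry (X : SimpleGraph V) (θ : ℝ) (a b : V) : ℝ :=
  (Module.End.eigenspace (adjOp X) θ).starProjection (EuclideanSpace.single b 1) a

/-- `C^+`: the eigenvalues `θ` with `(E_θ)_{a,b} > 0`. -/
def Cplus (X : SimpleGraph V) (a b : V) : Set ℝ :=
  {θ | (adjOp X).HasEigenvalue θ ∧ 0 < projEntry X θ a b}

/-- `C^-`: the eigenvalues `θ` with `(E_θ)_{a,b} < 0`. -/
def Cminus (X : SimpleGraph V) (a b : V) : Set ℝ :=
  {θ | (adjOp X).HasEigenvalue θ ∧ projEntry X θ a b < 0}

/-- A set of real numbers is closed under algebraic conjugates: for every member `θ`, every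
complex root of the minimal polynomial of `θ` over `ℚ` is a member. -/
def ConjClosed (S : Set ℝ) : Prop :=
  ∀ θ ∈ S, ∀ z : ℂ, Polynomial.aeval z (minpoly ℚ θ) = 0 → ∃ η ∈ S, (η : ℂ) = z

/-! ### Exponential of a matrix on an eigenvector -/

theorem exp_mulVec_of_eigen (M : Matrix V V ℂ) (v : V → ℂ) (μ : ℂ) (h : M *ᵥ v = μ • v) :
    NormedSpace.exp M *ᵥ v = Complex.exp μ • v := by
  open scoped Matrix.Norms.Operator in
  have h1 := NormedSpace.exp_series_hasSum_exp' (𝕂 := ℂ) M
  have hpow : ∀ n : ℕ, (M ^ n) *ᵥ v = μ ^ n • v := by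
    intro n
    induction n with
    | zero => simp
    | succ n ih =>
      rw [pow_succ', ← Matrix.mulVec_mulVec, ih, Matrix.mulVec_smul, h, smul_smul, pow_succ]
  let L : Matrix V V ℂ →ₗ[ℂ] (V → ℂ) :=
    { toFun := fun N => N *ᵥ v
      map_add' := fun A B => Matrix.add_mulVec A B v
      map_smul' := fun c A => by simp [Matrix.smul_mulVec] }
  have hL : Continuous L := L.continuous_of_finiteDimensional
  have h2 : HasSum (fun n : ℕ => L (((n.factorial : ℂ)⁻¹) • M ^ n)) (L (NormedSpace.exp M)) :=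
    h1.map L hL
  have h3 := (NormedSpace.exp_series_hasSum_exp' (𝕂 := ℂ) μ).smul_const v
  rw [← Complex.exp_eq_exp_ℂ] at h3
  refine HasSum.unique (?_ : HasSum _ (L (NormedSpace.exp M))) h3
  refine h2.congr_fun ?_
  intro n
  simp [L, hpow, smul_smul]

/-! ### The graph -/

/-- The cells: `0` for `a`, `1` for `b`, `2` for `A1`, `3` for `B1`, `4` for `A2`, `5` for `B2`. -/
def cell : Fin 66 → Fin 6 := fun v =>
  if v.val = 0 then 0 else if v.val = 1 then 1 else if v.val < 18 then 2
  else if v.val < 34 then 3 else if v.val < 50 then 4 else 5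

/-- The class of a vertex in its cell. -/
def cls (v : Fin 66) : ℕ := (v.val + 2) % 4

/-- The kind of the adjacency between two cells: `0` no edges, `1` all edges, `2` edges between
equal classes, `3` edges between different classes. -/
def kind : Fin 6 → Fin 6 → ℕ :=
  ![![0, 0, 1, 0, 0, 0], ![0, 0, 0, 1, 0, 0], ![1, 0, 0, 3, 2, 0], ![0, 1, 3, 3, 0, 2],
    ![0, 0, 2, 0, 3, 0], ![0, 0, 0, 2, 0, 3]]

/-- Adjacency of the graph, as a Boolean. -/
def adjB (u v : Fin 66) : Bool :=
  match kind (cell u) (cell v) with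
  | 0 => false
  | 1 => true
  | 2 => cls u == cls v
  | _ => cls u != cls v

/-- The graph on 66 vertices. -/
def G : SimpleGraph (Fin 66) where
  Adj u v := adjB u v = true
  symm := ⟨by decide +kernel⟩
  loopless := ⟨by decide +kernel⟩

instance : DecidableRel G.Adj := fun u v => inferInstanceAs (Decidable (adjB u v = true))

/-- The quotient matrix: the number of neighbours in cell `k'` of a vertex in cell `k`. -/
def quot : Fin 6 → Fin 6 → ℕ :=
  ![![0, 0, 16, 0, 0, 0], ![0, 0, 0, 16, 0, 0], ![1, 0, 0, 12, 4, 0], ![0, 1, 12, 12, 0, 4],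
    ![0, 0, 4, 0, 12, 0], ![0, 0, 0, 4, 0, 12]]

theorem card_nbrs : ∀ (u : Fin 66) (k : Fin 6),
    (Finset.univ.filter fun v => cell v = k ∧ adjB u v = true).card = quot (cell u) k := by
  decide +kernel

theorem connected_G : G.Connected := by
  have h : ∀ v : Fin 66, v ≠ 0 → ∃ w : Fin 66, adjB w v = true ∧
      (![0, 3, 1, 2, 2, 3] : Fin 6 → ℕ) (cell w) < (![0, 3, 1, 2, 2, 3] : Fin 6 → ℕ) (cell v) := by
    decide +kernel
  have key : ∀ (n : ℕ) (v : Fin 66), (![0, 3, 1, 2, 2, 3] : Fin 6 → ℕ) (cell v) ≤ n →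
      G.Reachable 0 v := by
    intro n
    induction n with
    | zero =>
      intro v hv
      by_cases h0 : v = 0
      · subst h0
        exact SimpleGraph.Reachable.refl _
      · obtain ⟨w, _, hw⟩ := h v h0
        omega
    | succ n ih =>
      intro v hv
      by_cases h0 : v = 0
      · subst h0
        exact SimpleGraph.Reachable.refl _
      · obtain ⟨w, hw, hw'⟩ := h v h0
        have hadj : G.Adj w v := hw
        exact (ih w (by omega)).trans hadj.reachable
  exact { preconnected := fun u v => (key _ u le_rfl).symm.trans (key _ v le_rfl)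
          nonempty := ⟨0⟩ }

/-- The adjacency matrix on a function of the cells. -/
theorem mulVec_cell (R : Type*) [CommRing R] (g : Fin 6 → R) (u : Fin 66) :
    (adjM R G *ᵥ fun v => g (cell v)) u = ∑ k, (quot (cell u) k : R) * g k := by
  have h1 : (adjM R G *ᵥ fun v => g (cell v)) u =
      ∑ v, ∑ k, if cell v = k ∧ adjB u v = true then g k else 0 := by
    simp only [Matrix.mulVec, dotProduct]
    apply Finset.sum_congr rfl
    intro v _
    rw [Finset.sum_eq_single (cell v)]
    · by_cases h : adjB u v = true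
      · have h' : G.Adj u v := h
        simp [adjM, h, h']
      · have h' : ¬ G.Adj u v := h
        simp [adjM, h, h']
    · intro k _ hk
      rw [if_neg]
      rintro ⟨h, _⟩
      exact hk h.symm
    · intro h
      exact absurd (Finset.mem_univ _) h
  rw [h1, Finset.sum_comm]
  apply Finset.sum_congr rfl
  intro k _
  rw [← card_nbrs u k, ← Finset.sum_filter, Finset.sum_const, nsmul_eq_mul]

/-! ### Eigenvectors -/

/-- The values `0, √2, -√2`. -/
noncomputable def sg : Fin 3 → ℝ := ![0, √2, -√2]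

/-- The eigenvalues `6 + 2 r`, `6 + 2 r + 8 √2`, `6 + 2 r - 8 √2`, where `r = √5` or `r = -√5`. -/
noncomputable def th (r : ℝ) (e : Fin 3) : ℝ := 6 + 2 * r + 8 * sg e

/-- The values of the eigenvectors on the three levels. -/
noncomputable def wt (r : ℝ) : Fin 3 → Fin 3 → ℝ :=
  ![![(56 - 24 * r) / 128, (6 - 2 * r) / 128, -4 / 128],
    ![(36 + 12 * r - 24 * √2 - 8 * r * √2) / 128, (-3 + r + 4 * √2) / 128, 2 / 128],
    ![(36 + 12 * r + 24 * √2 + 8 * r * √2) / 128, (-3 + r - 4 * √2) / 128, 2 / 128]]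

/-- The eigenvectors, as functions of the cell. -/
noncomputable def vec (r α β : ℝ) (e : Fin 3) : Fin 6 → ℝ :=
  ![α * wt r e 0, β * wt r e 0, α * wt r e 1, β * wt r e 1, α * wt r e 2, β * wt r e 2]

theorem vec_eigen (r α β : ℝ) (hr : r ^ 2 = 5) (hαβ : 2 * β = (1 + r) * α) (e : Fin 3)
    (k : Fin 6) :
    ∑ k', (quot k k' : ℝ) * vec r α β e k' = th r e * vec r α β e k := by
  have h2 : √2 ^ 2 = (2 : ℝ) := Real.sq_sqrt (by norm_num)
  fin_cases e <;> fin_cases k <;>
    simp [quot, vec, wt, th, sg, Fin.sum_univ_succ] <;> grind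

theorem vec_sum (r α β : ℝ) (k : Fin 6) :
    ∑ e, vec r α β e k = (![α, β, 0, 0, 0, 0] : Fin 6 → ℝ) k := by
  fin_cases k <;> simp [vec, wt, Fin.sum_univ_succ] <;> ring

/-- The two square roots of `5`. -/
noncomputable def rt : Fin 2 → ℝ := ![√5, -√5]

theorem rt_sq (i : Fin 2) : rt i ^ 2 = 5 := by
  have h5 : √5 ^ 2 = (5 : ℝ) := Real.sq_sqrt (by norm_num)
  fin_cases i <;> simp [rt]

theorem cell_eq_zero : ∀ v : Fin 66, cell v = 0 ↔ v = 0 := by decide +kernel

theorem cell_eq_one : ∀ v : Fin 66, cell v = 1 ↔ v = 1 := by decide +kernel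

theorem single_zero (v : Fin 66) :
    ∑ i, ∑ e, vec (rt i) ((5 - rt i) / 10) (rt i / 5) e (cell v) =
      (Pi.single 0 1 : Fin 66 → ℝ) v := by
  simp_rw [vec_sum]
  by_cases h0 : v = 0
  · subst h0
    have : cell 0 = 0 := by decide
    simp [this, rt]
    ring
  · rw [Pi.single_eq_of_ne h0]
    have h0' : cell v ≠ 0 := fun h => h0 ((cell_eq_zero v).1 h)
    revert h0'
    generalize cell v = k
    intro h0'
    fin_cases k <;> simp [rt] at h0' ⊢
    all_goals ring

theorem single_one (v : Fin 66) :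
    ∑ i, ∑ e, vec (rt i) (rt i / 5) ((5 + rt i) / 10) e (cell v) =
      (Pi.single 1 1 : Fin 66 → ℝ) v := by
  simp_rw [vec_sum]
  by_cases h0 : v = 1
  · subst h0
    have : cell 1 = 1 := by decide
    simp [this, rt]
    ring
  · rw [Pi.single_eq_of_ne h0]
    have h0' : cell v ≠ 1 := fun h => h0 ((cell_eq_one v).1 h)
    revert h0'
    generalize cell v = k
    intro h0'
    fin_cases k <;> simp [rt] at h0' ⊢
    all_goals ring

/-! ### Fractional revival -/

theorem U_mulVec (t r α β : ℝ) (hr : r ^ 2 = 5) (hαβ : 2 * β = (1 + r) * α) (e : Fin 3) :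
    (U G t *ᵥ fun v => ((vec r α β e (cell v) : ℝ) : ℂ)) =
      Complex.exp (Complex.I * t * (th r e : ℝ)) • fun v => ((vec r α β e (cell v) : ℝ) : ℂ) := by
  apply exp_mulVec_of_eigen
  rw [Matrix.smul_mulVec]
  ext u
  have h := mulVec_cell ℂ (fun k => ((vec r α β e k : ℝ) : ℂ)) u
  have h' : ∑ k', (quot (cell u) k' : ℂ) * ((vec r α β e k' : ℝ) : ℂ) =
      (th r e : ℝ) * ((vec r α β e (cell u) : ℝ) : ℂ) := by
    rw [← Complex.ofReal_mul, ← vec_eigen r α β hr hαβ e (cell u)]
    push_cast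
    rfl
  simp only [Pi.smul_apply, smul_eq_mul]
  rw [h, h']
  ring

/-- The time of the fractional revival. -/
noncomputable def t0 : ℝ := Real.pi / (4 * √2)

theorem exp_t0 (r : ℝ) (e : Fin 3) :
    Complex.exp (Complex.I * t0 * (th r e : ℝ)) = Complex.exp (Complex.I * t0 * (6 + 2 * r : ℝ)) := by
  have h2 : √2 ^ 2 = (2 : ℝ) := Real.sq_sqrt (by norm_num)
  have h20 : √2 ≠ (0 : ℝ) := by positivity
  have key : t0 * (8 * √2) = 2 * Real.pi := by
    unfold t0
    field_simp
    ring
  fin_cases e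
  · simp [th, sg]
  · rw [Complex.exp_eq_exp_iff_exists_int]
    refine ⟨1, ?_⟩
    have : (t0 : ℂ) * (8 * (√2 : ℝ)) = 2 * (Real.pi : ℝ) := by exact_mod_cast key
    simp only [th, sg]
    push_cast
    simp
    linear_combination Complex.I * this
  · rw [Complex.exp_eq_exp_iff_exists_int]
    refine ⟨-1, ?_⟩
    have : (t0 : ℂ) * (8 * (√2 : ℝ)) = 2 * (Real.pi : ℝ) := by exact_mod_cast key
    simp only [th, sg]
    push_cast
    simp
    linear_combination - Complex.I * this

theorem U_single (α β : Fin 2 → ℝ) (hαβ : ∀ i, 2 * β i = (1 + rt i) * α i) (j : Fin 66)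
    (hj : ∀ v, ∑ i, ∑ e, vec (rt i) (α i) (β i) e (cell v) = (Pi.single j 1 : Fin 66 → ℝ) v)
    (c : Fin 66) :
    U G t0 c j = ∑ i, Complex.exp (Complex.I * t0 * (6 + 2 * rt i : ℝ)) *
      (((![α i, β i, 0, 0, 0, 0] : Fin 6 → ℝ) (cell c) : ℝ) : ℂ) := by
  have h1 : (Pi.single j 1 : Fin 66 → ℂ) =
      ∑ i, ∑ e, fun v => ((vec (rt i) (α i) (β i) e (cell v) : ℝ) : ℂ) := by
    ext v
    rw [Finset.sum_apply]
    simp_rw [Finset.sum_apply]
    have : ((∑ i, ∑ e, vec (rt i) (α i) (β i) e (cell v) : ℝ) : ℂ) =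
        (((Pi.single j 1 : Fin 66 → ℝ) v : ℝ) : ℂ) := by rw [hj v]
    push_cast at this
    rw [this]
    by_cases hv : v = j
    · subst hv
      simp
    · simp [Pi.single_eq_of_ne hv]
  have h2 : U G t0 c j = (U G t0 *ᵥ (Pi.single j 1 : Fin 66 → ℂ)) c := by simp
  rw [h2, h1, Matrix.mulVec_sum, Finset.sum_apply]
  apply Finset.sum_congr rfl
  intro i _
  rw [Matrix.mulVec_sum, Finset.sum_apply]
  simp_rw [U_mulVec t0 (rt i) (α i) (β i) (rt_sq i) (hαβ i), exp_t0]
  simp only [Pi.smul_apply, smul_eq_mul]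
  rw [← Finset.mul_sum, ← vec_sum (rt i) (α i) (β i) (cell c)]
  push_cast
  rfl

theorem U_zero (c : Fin 66) :
    U G t0 c 0 = ∑ i, Complex.exp (Complex.I * t0 * (6 + 2 * rt i : ℝ)) *
      (((![(5 - rt i) / 10, rt i / 5, 0, 0, 0, 0] : Fin 6 → ℝ) (cell c) : ℝ) : ℂ) := by
  apply U_single (fun i => (5 - rt i) / 10) (fun i => rt i / 5) ?_ 0 single_zero
  intro i
  have := rt_sq i
  linear_combination (1 / 10 : ℝ) * this

theorem U_one (c : Fin 66) :
    U G t0 c 1 = ∑ i, Complex.exp (Complex.I * t0 * (6 + 2 * rt i : ℝ)) *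
      (((![rt i / 5, (5 + rt i) / 10, 0, 0, 0, 0] : Fin 6 → ℝ) (cell c) : ℝ) : ℂ) := by
  apply U_single (fun i => rt i / 5) (fun i => (5 + rt i) / 10) ?_ 1 single_one
  intro i
  have := rt_sq i
  linear_combination (-1 / 5 : ℝ) * this

theorem U_symm (t : ℝ) (u v : Fin 66) : U G t u v = U G t v u := by
  have h : (U G t)ᵀ = U G t := by
    unfold U
    rw [← Matrix.exp_transpose]
    congr 1
    ext u v
    simp [adjM, G.adj_comm]
  rw [← congrFun (congrFun h v) u]
  rfl

theorem exp_ne : Complex.exp (Complex.I * t0 * (6 + 2 * √5 : ℝ)) ≠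
    Complex.exp (Complex.I * t0 * (6 + 2 * -√5 : ℝ)) := by
  intro h
  rw [Complex.exp_eq_exp_iff_exists_int] at h
  obtain ⟨n, hn⟩ := h
  have h1 : (t0 : ℂ) * (4 * (√5 : ℝ)) = n * (2 * (Real.pi : ℝ)) := by
    have hI : Complex.I * Complex.I = -1 := Complex.I_mul_I
    push_cast at hn
    linear_combination (-Complex.I) * hn +
      (4 * (t0 : ℂ) * (√5 : ℝ) - 2 * n * (Real.pi : ℝ)) * hI
  have h2 : t0 * (4 * √5) = n * (2 * Real.pi) := by exact_mod_cast h1
  have h20 : √2 ≠ (0 : ℝ) := by positivity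
  have h3 : √5 = 2 * n * √2 := by
    unfold t0 at h2
    have hpi : Real.pi ≠ 0 := Real.pi_ne_zero
    field_simp at h2
    linear_combination h2
  have h4 : (5 : ℝ) = 8 * (n : ℝ) ^ 2 := by
    have h5 : √5 ^ 2 = (5 : ℝ) := Real.sq_sqrt (by norm_num)
    have h2' : √2 ^ 2 = (2 : ℝ) := Real.sq_sqrt (by norm_num)
    rw [← h5, h3]
    linear_combination 4 * (n : ℝ) ^ 2 * h2'
  have h5 : (5 : ℤ) = 8 * n ^ 2 := by exact_mod_cast h4
  omega

theorem revival : ProperFractionalRevival G 0 1 t0 := by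
  refine ⟨by decide, ?_, ?_⟩
  · intro c hc0 hc1
    have h0 : cell c ≠ 0 := fun h => hc0 ((cell_eq_zero c).1 h)
    have h1 : cell c ≠ 1 := fun h => hc1 ((cell_eq_one c).1 h)
    rw [U_symm, U_symm t0 1 c, U_zero, U_one]
    revert h0 h1
    generalize cell c = k
    intro h0 h1
    constructor <;> apply Finset.sum_eq_zero <;> intro i _ <;> fin_cases k <;>
      simp at h0 h1 ⊢
  · rw [U_symm, U_zero]
    have hc : cell 1 = 1 := by decide
    rw [hc, Fin.sum_univ_two]
    have h5 : (√5 : ℝ) ≠ 0 := by positivity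
    have h5' : ((√5 : ℝ) : ℂ) ≠ 0 := by exact_mod_cast h5
    intro h
    apply exp_ne
    simp only [rt, Matrix.cons_val_zero, Matrix.cons_val_one] at h
    have h6 : (Complex.exp (Complex.I * t0 * (6 + 2 * √5 : ℝ)) -
        Complex.exp (Complex.I * t0 * (6 + 2 * -√5 : ℝ))) * ((√5 : ℝ) / 5 : ℂ) = 0 := by
      rw [← h]
      push_cast
      ring
    rcases mul_eq_zero.1 h6 with h7 | h7
    · exact sub_eq_zero.1 h7
    · exfalso
      simp at h7

/-! ### Spectral projections -/

theorem adjOp_isSymmetric (X : SimpleGraph V) : (adjOp X).IsSymmetric := by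
  unfold adjOp
  rw [Matrix.isSymmetric_toEuclideanLin_iff]
  ext u v
  by_cases h : X.Adj u v
  · simp [adjM, h, h.symm]
  · have h' : ¬ X.Adj v u := fun h' => h h'.symm
    simp [adjM, h, h']

/-- The eigenvectors in the Euclidean space. -/
noncomputable def evec (r α β : ℝ) (e : Fin 3) : EuclideanSpace ℝ (Fin 66) :=
  WithLp.toLp 2 fun v => vec r α β e (cell v)

theorem adjOp_evec (r α β : ℝ) (hr : r ^ 2 = 5) (hαβ : 2 * β = (1 + r) * α) (e : Fin 3) :
    adjOp G (evec r α β e) = th r e • evec r α β e := by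
  have h : (adjM ℝ G *ᵥ fun v => vec r α β e (cell v)) =
      th r e • fun v => vec r α β e (cell v) := by
    ext u
    rw [mulVec_cell ℝ (vec r α β e) u, vec_eigen r α β hr hαβ e (cell u)]
    rfl
  unfold adjOp evec
  rw [Matrix.toLpLin_apply, h]
  rfl

theorem th_ne (i j : Fin 2) (e : Fin 3) (h : i ≠ j ∨ e ≠ 0) : th (rt i) 0 ≠ th (rt j) e := by
  have h2 : √2 ^ 2 = (2 : ℝ) := Real.sq_sqrt (by norm_num)
  have h5 : √5 ^ 2 = (5 : ℝ) := Real.sq_sqrt (by norm_num)
  have h2' : 0 < √2 := by positivity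
  have h5' : 0 < √5 := by positivity
  intro heq
  fin_cases i <;> fin_cases j <;> fin_cases e <;> simp [th, rt, sg] at h heq <;> nlinarith

theorem proj_single (i : Fin 2) :
    (Module.End.eigenspace (adjOp G) (6 + 2 * rt i)).starProjection (EuclideanSpace.single 1 1) =
      evec (rt i) (rt i / 5) ((5 + rt i) / 10) 0 := by
  have hαβ : ∀ j, 2 * ((5 + rt j) / 10) = (1 + rt j) * (rt j / 5) := by
    intro j
    have := rt_sq j
    linear_combination (-1 / 5 : ℝ) * this
  have hth : ∀ j, th (rt j) 0 = 6 + 2 * rt j := by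
    intro j
    simp [th, sg]
  apply Submodule.eq_starProjection_of_mem_of_inner_eq_zero
  · rw [Module.End.mem_eigenspace_iff, adjOp_evec _ _ _ (rt_sq i) (hαβ i), hth]
  · intro w hw
    rw [Module.End.mem_eigenspace_iff] at hw
    have hsum : (EuclideanSpace.single 1 1 : EuclideanSpace ℝ (Fin 66)) =
        ∑ j, ∑ e, evec (rt j) (rt j / 5) ((5 + rt j) / 10) e := by
      ext v
      have := single_one v
      simp only [evec, WithLp.ofLp_sum, Finset.sum_apply]
      rw [this]
      rfl
    have hort : ∀ j e, (i ≠ j ∨ e ≠ 0) →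
        inner ℝ (evec (rt j) (rt j / 5) ((5 + rt j) / 10) e) w = 0 := by
      intro j e hje
      have h1 := adjOp_isSymmetric G (evec (rt j) (rt j / 5) ((5 + rt j) / 10) e) w
      rw [adjOp_evec _ _ _ (rt_sq j) (hαβ j), hw, inner_smul_left, inner_smul_right] at h1
      simp only [conj_trivial] at h1
      have h2 := th_ne i j e hje
      rw [hth] at h2
      have h3 : (th (rt j) e - (6 + 2 * rt i)) *
          inner ℝ (evec (rt j) (rt j / 5) ((5 + rt j) / 10) e) w = 0 := by
        linear_combination h1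
      rcases mul_eq_zero.1 h3 with h4 | h4
      · exact absurd (sub_eq_zero.1 h4).symm h2
      · exact h4
    rw [hsum, inner_sub_left, sum_inner]
    simp_rw [sum_inner]
    rw [Finset.sum_eq_single i, Finset.sum_eq_single 0]
    · ring
    · intro e _ he
      exact hort i e (Or.inr he)
    · intro h
      exact absurd (Finset.mem_univ _) h
    · intro j _ hj
      apply Finset.sum_eq_zero
      intro e _
      exact hort j e (Or.inl hj.symm)
    · intro h
      exact absurd (Finset.mem_univ _) h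

theorem projEntry_eq (i : Fin 2) :
    projEntry G (6 + 2 * rt i) 0 1 = (rt i / 5) * ((56 - 24 * rt i) / 128) := by
  unfold projEntry
  rw [proj_single]
  have : cell 0 = 0 := by decide
  simp [evec, vec, wt, this]

theorem hasEigenvalue (i : Fin 2) : (adjOp G).HasEigenvalue (6 + 2 * rt i) := by
  have hαβ : 2 * ((5 + rt i) / 10) = (1 + rt i) * (rt i / 5) := by
    have := rt_sq i
    linear_combination (-1 / 5 : ℝ) * this
  have hth : th (rt i) 0 = 6 + 2 * rt i := by
    simp [th, sg]
  apply Module.End.hasEigenvalue_of_hasEigenvector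
    (x := evec (rt i) (rt i / 5) ((5 + rt i) / 10) 0)
  refine ⟨?_, ?_⟩
  · rw [Module.End.mem_eigenspace_iff, adjOp_evec _ _ _ (rt_sq i) hαβ, hth]
  · intro h0
    have h1 : (evec (rt i) (rt i / 5) ((5 + rt i) / 10) 0) 34 = 0 := by rw [h0]; rfl
    have : cell 34 = 4 := by decide
    simp [evec, vec, wt, this] at h1
    have := rt_sq i
    rw [h1] at this
    norm_num at this

theorem plus_mem : 6 + 2 * √5 ∈ Cplus G 0 1 := by
  have h5 : √5 ^ 2 = (5 : ℝ) := Real.sq_sqrt (by norm_num)
  have h5' : 0 < √5 := by positivity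
  have h := projEntry_eq 0
  have h' := hasEigenvalue 0
  simp only [rt, Matrix.cons_val_zero] at h h'
  refine ⟨h', ?_⟩
  rw [h]
  have : √5 < 56 / 24 := by nlinarith
  nlinarith

theorem minus_mem : 6 + 2 * -√5 ∈ Cminus G 0 1 := by
  have h5 : √5 ^ 2 = (5 : ℝ) := Real.sq_sqrt (by norm_num)
  have h5' : 0 < √5 := by positivity
  have h := projEntry_eq 1
  have h' := hasEigenvalue 1
  simp only [rt, Matrix.cons_val_one] at h h'
  refine ⟨h', ?_⟩
  have h'' : projEntry G (6 + 2 * -√5) 0 1 = -√5 / 5 * ((56 - 24 * -√5) / 128) := by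
    simpa using h
  rw [h'']
  nlinarith

/-! ### Conjugates -/

open Polynomial in
theorem minpoly_eq (r : ℝ) (hr : r ^ 2 = 5) :
    minpoly ℚ (6 + 2 * r) = X ^ 2 - 12 * X + 16 := by
  have hmonic : (X ^ 2 - 12 * X + 16 : ℚ[X]).Monic := by
    monicity!
  have hdeg : (X ^ 2 - 12 * X + 16 : ℚ[X]).natDegree = 2 := by
    compute_degree!
  symm
  apply minpoly.eq_of_irreducible_of_monic _ _ hmonic
  · rw [hmonic.irreducible_iff_roots_eq_zero_of_degree_le_three (by omega) (by omega)]
    rw [Multiset.eq_zero_iff_forall_notMem]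
    intro x hx
    have hx' := (Polynomial.mem_roots hmonic.ne_zero).1 hx
    simp only [IsRoot.def, eval_add, eval_sub, eval_mul, eval_pow, eval_X, eval_ofNat] at hx'
    have h5 : (((x - 6) / 2 : ℚ) : ℝ) ^ 2 = 5 := by
      have : ((x - 6) / 2) ^ 2 = 5 := by linear_combination hx' / 4
      exact_mod_cast this
    have hirr : Irrational (√5) := by
      have := Nat.Prime.irrational_sqrt (p := 5) (by norm_num)
      exact_mod_cast this
    apply hirr
    refine ⟨|((x - 6) / 2 : ℚ)|, ?_⟩
    rw [← h5, Real.sqrt_sq_eq_abs]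
    push_cast
    rfl
  · simp only [map_add, map_sub, map_mul, map_pow, aeval_X, map_ofNat]
    linear_combination 4 * hr

theorem aeval_conj (r r' : ℝ) (hr : r ^ 2 = 5) (hr' : r' ^ 2 = 5) :
    Polynomial.aeval ((6 + 2 * r' : ℝ) : ℂ) (minpoly ℚ (6 + 2 * r)) = 0 := by
  rw [minpoly_eq r hr]
  simp only [map_add, map_sub, map_mul, map_pow, Polynomial.aeval_X, map_ofNat]
  have h : ((r' ^ 2 : ℝ) : ℂ) = ((5 : ℝ) : ℂ) := by rw [hr']
  push_cast at h ⊢
  linear_combination 4 * h

/-- There is a connected graph with proper fractional revival on `{a, b}` for which neither `C^+`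
nor `C^-` is closed under algebraic conjugates. -/
theorem result : ∃ (X : SimpleGraph (Fin 66)) (a b : Fin 66), X.Connected ∧
    (∃ t : ℝ, 0 < t ∧ ProperFractionalRevival X a b t) ∧
    ¬ ConjClosed (Cplus X a b) ∧ ¬ ConjClosed (Cminus X a b) := by
  have h5 : √5 ^ 2 = (5 : ℝ) := Real.sq_sqrt (by norm_num)
  have h5n : (-√5) ^ 2 = (5 : ℝ) := by rw [neg_sq, h5]
  refine ⟨G, 0, 1, connected_G, ⟨t0, ?_, revival⟩, ?_, ?_⟩
  · unfold t0
    positivity
  · intro hc
    obtain ⟨η, hη, hη'⟩ := hc _ plus_mem _ (aeval_conj √5 (-√5) h5 h5n)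
    have h1 : η = 6 + 2 * -√5 := by exact_mod_cast hη'
    subst h1
    exact absurd hη.2 (not_lt.2 minus_mem.2.le)
  · intro hc
    obtain ⟨η, hη, hη'⟩ := hc _ minus_mem _ (aeval_conj (-√5) √5 h5n h5)
    have h1 : η = 6 + 2 * √5 := by exact_mod_cast hη'
    subst h1
    exact absurd hη.2 (not_lt.2 plus_mem.2.le)

end Pool.Agent.Results.MP_d93d44_co.NotConjClosed
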